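import Pool.Agent.helper17.SG.SpecP

/-!
# Module P05 of project sg: (MP_2b8aea_gt): basic properties of the exit distribution
-/

set_option autoImplicit false

open MeasureTheory Set Metric Filter Topology
open scoped ENNReal NNReal ComplexConjugate

namespace Pool.Agent.SG

section
variable {Γ : Type} [Group Γ] (W : Walk Γ) (D : Set Γ)

theorem P05_exn_zero_of_mem {x w : Γ} (hx : x ∈ D) : W.exn D 0 x w = 0 := by
  simp [Walk.exn, hx]

theorem P05_exn_succ_of_mem {x w : Γ} (hx : x ∈ D) (n : ℕ) :
    W.exn D (n + 1) x w = ∑ s ∈ W.S, W.μ s * W.exn D n (x * s) w := by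
  simp [Walk.exn, hx]

theorem P05_exn_self {x : Γ} (hx : x ∉ D) (n : ℕ) : W.exn D n x x = 1 := by
  cases n <;> simp [Walk.exn, hx]

theorem P05_exn_ne {x w : Γ} (hx : x ∉ D) (h : x ≠ w) (n : ℕ) : W.exn D n x w = 0 := by
  cases n <;> simp [Walk.exn, hx, h]

theorem P05_mono_succ (n : ℕ) : ∀ x w : Γ, W.exn D n x w ≤ W.exn D (n + 1) x w := by
  induction n with
  | zero =>
    intro x w
    by_cases hx : x ∈ D
    · rw [P05_exn_zero_of_mem W D hx]
      exact zero_le
    · by_cases h : x = w
      · subst h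
        rw [P05_exn_self W D hx, P05_exn_self W D hx]
      · rw [P05_exn_ne W D hx h, P05_exn_ne W D hx h]
  | succ n ih =>
    intro x w
    by_cases hx : x ∈ D
    · rw [P05_exn_succ_of_mem W D hx, P05_exn_succ_of_mem W D hx]
      exact Finset.sum_le_sum fun s _ => mul_le_mul_right (ih (x * s) w) _
    · by_cases h : x = w
      · subst h
        rw [P05_exn_self W D hx, P05_exn_self W D hx]
      · rw [P05_exn_ne W D hx h, P05_exn_ne W D hx h]

theorem P05_mono (x w : Γ) : Monotone fun n => W.exn D n x w :=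
  monotone_nat_of_le_succ fun n => P05_mono_succ W D n x w

theorem P05_ne_zero (n : ℕ) : ∀ x w : Γ, W.exn D n x w ≠ 0 →
    w ∉ D ∧ (w = x ∨ ∃ y ∈ D, ∃ s ∈ W.S, w = y * s) := by
  induction n with
  | zero =>
    intro x w h
    by_cases hx : x ∈ D
    · exact absurd (P05_exn_zero_of_mem W D hx) h
    · by_cases hw : x = w
      · subst hw
        exact ⟨hx, Or.inl rfl⟩
      · exact absurd (P05_exn_ne W D hx hw 0) h
  | succ n ih =>
    intro x w h
    by_cases hx : x ∈ D
    · rw [P05_exn_succ_of_mem W D hx] at h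
      obtain ⟨s, hs, hne⟩ := Finset.exists_ne_zero_of_sum_ne_zero h
      obtain ⟨h1, h2⟩ := ih (x * s) w (right_ne_zero_of_mul hne)
      refine ⟨h1, Or.inr ?_⟩
      rcases h2 with h2 | h2
      · exact ⟨x, hx, s, hs, h2⟩
      · exact h2
    · by_cases hw : x = w
      · subst hw
        exact ⟨hx, Or.inl rfl⟩
      · exact absurd (P05_exn_ne W D hx hw _) h

theorem P05_le_hitn (n : ℕ) : ∀ x w : Γ, W.exn D n x w ≤ W.hitn n x w := by
  induction n with
  | zero =>
    intro x w
    by_cases hx : x ∈ D
    · rw [P05_exn_zero_of_mem W D hx]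
      exact zero_le
    · by_cases h : x = w
      · subst h
        simp [Walk.exn, Walk.hitn, hx]
      · rw [P05_exn_ne W D hx h]
        exact zero_le
  | succ n ih =>
    intro x w
    by_cases h : x = w
    · subst h
      have h1 : W.hitn (n + 1) x x = 1 := by simp [Walk.hitn]
      rw [h1]
      by_cases hx : x ∈ D
      · have h2 : W.exn D (n + 1) x x = 0 := by
          by_contra hne
          exact (P05_ne_zero W D _ x x hne).1 hx
        rw [h2]
        exact zero_le
      · rw [P05_exn_self W D hx]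
    · by_cases hx : x ∈ D
      · rw [P05_exn_succ_of_mem W D hx]
        have h1 : W.hitn (n + 1) x w = ∑ s ∈ W.S, W.μ s * W.hitn n (x * s) w := by
          simp [Walk.hitn, h]
        rw [h1]
        exact Finset.sum_le_sum fun s _ => mul_le_mul_right (ih (x * s) w) _
      · rw [P05_exn_ne W D hx h]
        exact zero_le

theorem P05_step {x : Γ} (hx : x ∈ D) (w : Γ) :
    W.exi D x w = ∑ s ∈ W.S, W.μ s * W.exi D (x * s) w := by
  have h1 : W.exi D x w = ⨆ n, W.exn D (n + 1) x w := by
    unfold Walk.exi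
    exact ((P05_mono W D x w).iSup_nat_add 1).symm
  rw [h1]
  simp only [P05_exn_succ_of_mem W D hx, Walk.exi, ENNReal.mul_iSup]
  rw [ENNReal.finsetSum_iSup_of_monotone]
  intro s a b hab
  exact mul_le_mul_right (P05_mono W D (x * s) w hab) _

end

/-- **P05**. -/
theorem P05 : P05_stmt := by
  intro Γ _ W D
  refine ⟨P05_mono W D, ?_, ?_, ?_, ?_, ?_⟩
  · intro x w
    exact iSup_mono fun n => P05_le_hitn W D n x w
  · intro x w h
    obtain ⟨n, hn⟩ : ∃ n, W.exn D n x w ≠ 0 := by
      by_contra hne
      push Not at hne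
      apply h
      unfold Walk.exi
      simp [hne]
    exact P05_ne_zero W D n x w hn
  · intro w hw
    unfold Walk.exi
    simp [P05_exn_self W D hw]
  · intro x hx w
    exact P05_step W D hx w
  · intro x w hx h
    unfold Walk.exi
    simp [P05_exn_ne W D hx h]

end Pool.Agent.SG
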